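import Pool.Agent.Q19.HO.Stm

/-! Job FIXM: automorphisms of the skew-Hermitian matrices fixing the scalar imaginary matrices. -/

set_option autoImplicit false

namespace Pool.Agent.Q139.HO.FIXM

open Matrix Pool.Agent.Q19.HO

variable {K : Type} [Field K] {n : ℕ}

theorem im_star {o : Oct K} (ho : Im o) : star o = -o := by
  unfold Im at ho
  have h1 : o 1 = -o 0 := by linear_combination ho
  have h0 : o 0 = -o 1 := by linear_combination ho
  refine oct_ext fun i => ?_
  fin_cases i
  · show (star o) 0 = (-o) 0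
    rw [star0, neg_ap, h1]
  · show (star o) 1 = (-o) 1
    rw [star1, neg_ap, h0]
  · show (star o) 2 = (-o) 2
    rw [star2, neg_ap]
  · show (star o) 3 = (-o) 3
    rw [star3, neg_ap]
  · show (star o) 4 = (-o) 4
    rw [star4, neg_ap]
  · show (star o) 5 = (-o) 5
    rw [star5, neg_ap]
  · show (star o) 6 = (-o) 6
    rw [star6, neg_ap]
  · show (star o) 7 = (-o) 7
    rw [star7, neg_ap]

theorem im_comm (x y : Oct K) : Im (x * y - y * x) := by
  unfold Im
  rw [sub_ap, sub_ap, mul0, mul0, mul1, mul1]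
  ring

theorem im_add {x y : Oct K} (hx : Im x) (hy : Im y) : Im (x + y) := by
  unfold Im at *
  rw [add_ap, add_ap]
  linear_combination hx + hy

theorem ten_mul (s t : Matrix (Fin n) (Fin n) K) (o p : Oct K) :
    ten s o * ten t p = ten (s * t) (o * p) := by
  ext1 i j
  rw [Matrix.mul_apply]
  show ∑ k, (s i k • o) * (t k j • p) = (s * t) i j • (o * p)
  rw [Matrix.mul_apply, Finset.sum_smul]
  refine Finset.sum_congr rfl fun k _ => ?_
  rw [Pool.Agent.Q19.HO.smul_mul', Pool.Agent.Q19.HO.mul_smul', smul_smul]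

theorem re_ten (g : Matrix (Fin n) (Fin n) K) : re g = ten g (1 : Oct K) := rfl

theorem ten_one_mul (a : Oct K) (Y : Mat n K) (i j : Fin n) :
    (ten (1 : Matrix (Fin n) (Fin n) K) a * Y) i j = a * Y i j := by
  have h : ten (1 : Matrix (Fin n) (Fin n) K) a = Matrix.diagonal fun _ => a := by
    ext1 i j
    show (1 : Matrix (Fin n) (Fin n) K) i j • a = Matrix.diagonal (fun _ => a) i j
    rw [Matrix.one_apply, Matrix.diagonal_apply]
    split_ifs
    · rw [one_smul]
    · rw [zero_smul]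
  rw [h, Matrix.diagonal_mul]

theorem mul_ten_one (a : Oct K) (Y : Mat n K) (i j : Fin n) :
    (Y * ten (1 : Matrix (Fin n) (Fin n) K) a) i j = Y i j * a := by
  have h : ten (1 : Matrix (Fin n) (Fin n) K) a = Matrix.diagonal fun _ => a := by
    ext1 i j
    show (1 : Matrix (Fin n) (Fin n) K) i j • a = Matrix.diagonal (fun _ => a) i j
    rw [Matrix.one_apply, Matrix.diagonal_apply]
    split_ifs
    · rw [one_smul]
    · rw [zero_smul]
  rw [h, Matrix.mul_diagonal]

theorem ten_mem (s : SymK n K) {o : Oct K} (ho : Im o) :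
    ten (s : Matrix (Fin n) (Fin n) K) o ∈ SymM n K := by
  intro i j
  show star ((s : Matrix (Fin n) (Fin n) K) j i • o) = -((s : Matrix (Fin n) (Fin n) K) i j • o)
  have h : (s : Matrix (Fin n) (Fin n) K) j i = (s : Matrix (Fin n) (Fin n) K) i j := by
    have := congrFun (congrFun s.2 i) j
    rw [Matrix.transpose_apply] at this
    exact this
  rw [star_smul', im_star ho, smul_neg, h]

/-- `s ⊗ o` as an element of `Sym⁻` -/
def tS (s : SymK n K) (o : Oct K) (ho : Im o) : SymM n K := ⟨ten s o, ten_mem s ho⟩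

theorem ten_add_right (s : Matrix (Fin n) (Fin n) K) (o p : Oct K) :
    ten s (o + p) = ten s o + ten s p := by
  ext1 i j
  show s i j • (o + p) = s i j • o + s i j • p
  rw [smul_add]

theorem ten_smul_right (s : Matrix (Fin n) (Fin n) K) (r : K) (o : Oct K) :
    ten s (r • o) = r • ten s o := by
  ext1 i j
  show s i j • (r • o) = r • (s i j • o)
  rw [smul_comm]

theorem ten_add_left (s t : Matrix (Fin n) (Fin n) K) (o : Oct K) :
    ten (s + t) o = ten s o + ten t o := by
  ext1 i j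
  show (s + t) i j • o = s i j • o + t i j • o
  rw [Matrix.add_apply, add_smul]

theorem ten_smul_left (s : Matrix (Fin n) (Fin n) K) (r : K) (o : Oct K) :
    ten (r • s) o = r • ten s o := by
  ext1 i j
  show (r • s) i j • o = r • (s i j • o)
  rw [Matrix.smul_apply, smul_eq_mul, mul_smul]

theorem ten_sub_left (s t : Matrix (Fin n) (Fin n) K) (o : Oct K) :
    ten (s - t) o = ten s o - ten t o := by
  ext1 i j
  show (s - t) i j • o = s i j • o - t i j • o
  rw [Matrix.sub_apply, sub_smul]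

/-- octonions by coordinates -/
def mkO (v : Fin 8 → K) : Oct K := v

theorem mkO_ap (v : Fin 8 → K) (i : Fin 8) : mkO v i = v i := rfl

/-- `e₀ - e₁` -/
def hh : Oct K := mkO ![1, -1, 0, 0, 0, 0, 0, 0]

/-- `e₂` -/
def e2 : Oct K := mkO ![0, 0, 1, 0, 0, 0, 0, 0]

theorem im_hh : Im (hh : Oct K) := by
  show (1 : K) + -1 = 0
  ring

theorem im_e2 : Im (e2 : Oct K) := by
  show (0 : K) + 0 = 0
  ring

theorem hh_hh : (hh : Oct K) * hh = 1 := oct_ext fun i => by
  fin_cases i <;> simp [mul0, mul1, mul2, mul3, mul4, mul5, mul6, mul7, hh, mkO_ap] <;> rfl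

theorem hh_e2 : (hh : Oct K) * e2 = e2 := oct_ext fun i => by
  fin_cases i <;> simp [mul0, mul1, mul2, mul3, mul4, mul5, mul6, mul7, hh, e2, mkO_ap]

theorem e2_hh : (e2 : Oct K) * hh = -e2 := oct_ext fun i => by
  fin_cases i <;> simp [mul0, mul1, mul2, mul3, mul4, mul5, mul6, mul7, neg_ap, hh, e2, mkO_ap]

/-- imaginary octonions are sums of commutators -/
theorem im_sum (h2 : (2 : K) ≠ 0) {o : Oct K} (ho : Im o) : ∃ a b c d : Oct K, Im a ∧ Im b ∧ Im c ∧
    Im d ∧ o = (a * b - b * a) + (c * d - d * c) := by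
  unfold Im at ho
  have h1 : o 1 = -o 0 := by linear_combination ho
  refine ⟨e2, mkO ![0, 0, 0, 0, 0, o 0, 0, 0], hh,
    mkO ![0, 0, 2⁻¹ * o 2, 2⁻¹ * o 3, 2⁻¹ * o 4, -(2⁻¹ * o 5), -(2⁻¹ * o 6), -(2⁻¹ * o 7)],
    im_e2, ?_, im_hh, ?_, ?_⟩
  · show (0 : K) + 0 = 0
    ring
  · show (0 : K) + 0 = 0
    ring
  · refine oct_ext fun i => ?_
    fin_cases i <;> simp [mul0, mul1, mul2, mul3, mul4, mul5, mul6, mul7, add_ap, sub_ap, hh, e2, h1, mkO_ap] <;>
      field_simp <;> ring

/-- the projection to the imaginary octonions -/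
def pr : Oct K →ₗ[K] Oct K where
  toFun x := mkO ![x 0, -x 0, x 2, x 3, x 4, x 5, x 6, x 7]
  map_add' x y := oct_ext fun i => by
    fin_cases i <;> simp [add_ap, mkO_ap] <;> ring
  map_smul' r x := oct_ext fun i => by
    fin_cases i <;> simp [smul_ap, mkO_ap]

theorem im_pr (x : Oct K) : Im (pr x) := by
  show x 0 + -x 0 = 0
  ring

theorem pr_im {x : Oct K} (hx : Im x) : pr x = x := by
  unfold Im at hx
  have h1 : x 1 = -x 0 := by linear_combination hx
  refine oct_ext fun i => ?_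
  fin_cases i
  · rfl
  · show -x 0 = x 1
    rw [h1]
  all_goals rfl

/-- the bracket with a scalar matrix -/
theorem br_ten_one (a : Oct K) (Y : Mat n K) (i j : Fin n) :
    br (ten (1 : Matrix (Fin n) (Fin n) K) a) Y i j = a * Y i j - Y i j * a := by
  show (ten (1 : Matrix (Fin n) (Fin n) K) a * Y) i j -
    (Y * ten (1 : Matrix (Fin n) (Fin n) K) a) i j = _
  rw [ten_one_mul, mul_ten_one]

theorem br_ten (s t : Matrix (Fin n) (Fin n) K) (o p : Oct K) :
    br (ten s o) (ten t p) = ten (s * t) (o * p) - ten (t * s) (p * o) := by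
  show ten s o * ten t p - ten t p * ten s o = _
  rw [ten_mul, ten_mul]

/-- the unit matrix as a symmetric matrix -/
def oneS (n : ℕ) (K : Type) [Field K] : SymK n K := ⟨1, Matrix.transpose_one⟩

section

variable (f : SymM n K ≃ₗ[K] SymM n K) (hf : f ∈ AutM n K)
  (hfix : ∀ X : SymM n K, (∃ o : Oct K, Im o ∧ (X : Mat n K) = ten 1 o) → f X = X)

include hf hfix

theorem f_comm (s : SymK n K) {a b : Oct K} (ha : Im a) (hb : Im b) (i j : Fin n) :
    (f (tS s (a * b - b * a) (im_comm a b)) : Mat n K) i j =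
      a * (f (tS s b hb) : Mat n K) i j - (f (tS s b hb) : Mat n K) i j * a := by
  have h1 := hf (tS (oneS n K) a ha) (tS s b hb) (tS s (a * b - b * a) (im_comm a b)) (by
    show br (ten (1 : Matrix (Fin n) (Fin n) K) a) (ten (s : Matrix (Fin n) (Fin n) K) b) =
      ten (s : Matrix (Fin n) (Fin n) K) (a * b - b * a)
    rw [br_ten, Matrix.one_mul, Matrix.mul_one]
    ext1 i j
    show (s : Matrix (Fin n) (Fin n) K) i j • (a * b) - (s : Matrix (Fin n) (Fin n) K) i j • (b * a) =
      (s : Matrix (Fin n) (Fin n) K) i j • (a * b - b * a)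
    rw [smul_sub])
  rw [hfix (tS (oneS n K) a ha) ⟨a, ha, rfl⟩] at h1
  have h2 := congrFun (congrFun h1 i) j
  rw [← h2]
  exact br_ten_one a _ i j

theorem f_im (h2 : (2 : K) ≠ 0) (s : SymK n K) {o : Oct K} (ho : Im o) (i j : Fin n) :
    Im ((f (tS s o ho) : Mat n K) i j) := by
  obtain ⟨a, b, c, d, ha, hb, hc, hd, rfl⟩ := im_sum h2 ho
  have h1 : tS s ((a * b - b * a) + (c * d - d * c)) ho =
      tS s (a * b - b * a) (im_comm a b) + tS s (c * d - d * c) (im_comm c d) := by
    apply Subtype.ext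
    exact ten_add_right _ _ _
  rw [h1, map_add]
  show Im ((f (tS s (a * b - b * a) (im_comm a b)) : Mat n K) i j +
    (f (tS s (c * d - d * c) (im_comm c d)) : Mat n K) i j)
  rw [f_comm f hf hfix s ha hb, f_comm f hf hfix s hc hd]
  exact im_add (im_comm _ _) (im_comm _ _)

omit hf hfix in
/-- the entry of the image as a linear function of the octonion -/
def TT (s : SymK n K) (i j : Fin n) : Oct K →ₗ[K] Oct K where
  toFun x := (f (tS s (pr x) (im_pr x)) : Mat n K) i j
  map_add' x y := by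
    have h1 : tS s (pr (x + y)) (im_pr (x + y)) = tS s (pr x) (im_pr x) + tS s (pr y) (im_pr y) := by
      apply Subtype.ext
      show ten (s : Matrix (Fin n) (Fin n) K) (pr (x + y)) = ten _ (pr x) + ten _ (pr y)
      rw [map_add, ten_add_right]
    rw [h1, map_add]
    rfl
  map_smul' r x := by
    have h1 : tS s (pr (r • x)) (im_pr (r • x)) = r • tS s (pr x) (im_pr x) := by
      apply Subtype.ext
      show ten (s : Matrix (Fin n) (Fin n) K) (pr (r • x)) = r • ten _ (pr x)
      rw [map_smul, ten_smul_right]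
    rw [h1, map_smul]
    rfl

omit hf hfix in
theorem TT_im (s : SymK n K) (i j : Fin n) {o : Oct K} (ho : Im o) :
    TT f s i j o = (f (tS s o ho) : Mat n K) i j := by
  show (f (tS s (pr o) (im_pr o)) : Mat n K) i j = _
  have h1 : tS s (pr o) (im_pr o) = tS s o ho := by
    apply Subtype.ext
    show ten (s : Matrix (Fin n) (Fin n) K) (pr o) = ten _ o
    rw [pr_im ho]
  rw [h1]

theorem f_ten (hsch : S_SCH) (h2 : (2 : K) ≠ 0) (s : SymK n K) (i j : Fin n) {o : Oct K}
    (ho : Im o) : (f (tS s o ho) : Mat n K) i j = ((f (tS s hh im_hh) : Mat n K) i j) 0 • o := by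
  obtain ⟨r, hr⟩ := hsch K h2 (TT f s i j) (fun x hx => by
      rw [TT_im f s i j hx]
      exact f_im f hf hfix h2 s hx i j) (fun x y hx hy => by
      rw [TT_im f s i j (im_comm x y), TT_im f s i j hy]
      exact f_comm f hf hfix s hx hy i j)
  have h3 := hr hh im_hh
  rw [TT_im f s i j im_hh] at h3
  have h4 := hr o ho
  rw [TT_im f s i j ho] at h4
  rw [h3, h4, smul_ap]
  have : (hh : Oct K) 0 = 1 := rfl
  rw [this, mul_one]

theorem psi_symm (h2 : (2 : K) ≠ 0) (s : SymK n K) :
    (Matrix.of fun i j => ((f (tS s hh im_hh) : Mat n K) i j) 0)ᵀ =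
      Matrix.of fun i j => ((f (tS s hh im_hh) : Mat n K) i j) 0 := by
  ext i j
  show ((f (tS s hh im_hh) : Mat n K) j i) 0 = ((f (tS s hh im_hh) : Mat n K) i j) 0
  have h1 := (f (tS s hh im_hh)).2 i j
  have h3 := congrFun h1 0
  have h4 : (star ((f (tS s hh im_hh) : Mat n K) j i)) 0 = ((f (tS s hh im_hh) : Mat n K) j i) 1 :=
    star0 _
  have h5 : (-((f (tS s hh im_hh) : Mat n K) i j)) 0 = -(((f (tS s hh im_hh) : Mat n K) i j) 0) :=
    neg_ap _ _
  have h6 := f_im f hf hfix h2 s im_hh j i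
  unfold Im at h6
  rw [h4] at h3
  have h7 : ((f (tS s hh im_hh) : Mat n K) j i) 1 = -(((f (tS s hh im_hh) : Mat n K) i j) 0) :=
    h3.trans h5
  linear_combination h6 - h7

/-- the map `ψ` -/
def psi (h2 : (2 : K) ≠ 0) : SymK n K →ₗ[K] SymK n K where
  toFun s := ⟨Matrix.of fun i j => ((f (tS s hh im_hh) : Mat n K) i j) 0,
    psi_symm f hf hfix h2 s⟩
  map_add' s t := by
    apply Subtype.ext
    ext i j
    show ((f (tS (s + t) hh im_hh) : Mat n K) i j) 0 =
      ((f (tS s hh im_hh) : Mat n K) i j) 0 + ((f (tS t hh im_hh) : Mat n K) i j) 0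
    have h1 : tS (s + t) hh im_hh = tS s hh im_hh + tS t (hh : Oct K) im_hh := by
      apply Subtype.ext
      exact ten_add_left _ _ _
    rw [h1, map_add]
    rfl
  map_smul' r s := by
    apply Subtype.ext
    ext i j
    show ((f (tS (r • s) hh im_hh) : Mat n K) i j) 0 =
      r * ((f (tS s hh im_hh) : Mat n K) i j) 0
    have h1 : tS (r • s) hh im_hh = r • tS s (hh : Oct K) im_hh := by
      apply Subtype.ext
      exact ten_smul_left _ _ _
    rw [h1, map_smul]
    rfl

theorem f_psi (hsch : S_SCH) (h2 : (2 : K) ≠ 0) (s : SymK n K) {o : Oct K} (ho : Im o) :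
    (f (tS s o ho) : Mat n K) = ten (psi f hf hfix h2 s : Matrix (Fin n) (Fin n) K) o := by
  ext1 i j
  exact f_ten f hf hfix hsch h2 s i j ho

theorem psi_inj (hsch : S_SCH) (h2 : (2 : K) ≠ 0) : Function.Injective (psi f hf hfix h2) := by
  rw [injective_iff_map_eq_zero]
  intro s hs
  have h1 := f_psi f hf hfix hsch h2 s im_hh
  rw [hs] at h1
  have h3 : f (tS s hh im_hh) = 0 := by
    apply Subtype.ext
    rw [h1]
    ext1 i j
    show (0 : K) • (hh : Oct K) = 0
    rw [zero_smul]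
  have h4 : tS s (hh : Oct K) im_hh = 0 := by
    rw [← map_zero f] at h3
    exact f.injective h3
  apply Subtype.ext
  ext i j
  have h5 := congrArg (fun X : SymM n K => ((X : Mat n K) i j) 0) h4
  have h6 : ((s : Matrix (Fin n) (Fin n) K) i j • (hh : Oct K)) 0 = 0 := h5
  rw [smul_ap] at h6
  have : (hh : Oct K) 0 = 1 := rfl
  rw [this, mul_one] at h6
  exact h6

theorem psi_one (h2 : (2 : K) ≠ 0) (e : SymK n K) (he : (e : Matrix (Fin n) (Fin n) K) = 1) :
    psi f hf hfix h2 e = e := by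
  apply Subtype.ext
  ext i j
  have h1 : f (tS e hh im_hh) = tS e hh im_hh :=
    hfix _ ⟨hh, im_hh, by
      show ten (e : Matrix (Fin n) (Fin n) K) hh = ten 1 hh
      rw [he]⟩
  show ((f (tS e hh im_hh) : Mat n K) i j) 0 = (e : Matrix (Fin n) (Fin n) K) i j
  rw [h1]
  show (e : Matrix (Fin n) (Fin n) K) i j * (hh : Oct K) 0 = _
  have : (hh : Oct K) 0 = 1 := rfl
  rw [this, mul_one]

theorem ten_inj_e2 {s t : Matrix (Fin n) (Fin n) K} (h : ten s (e2 : Oct K) = ten t e2) : s = t := by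
  ext i j
  have h1 := congrArg (fun X : Mat n K => (X i j) 2) h
  have h3 : s i j * (e2 : Oct K) 2 = t i j * (e2 : Oct K) 2 := h1
  have : (e2 : Oct K) 2 = 1 := rfl
  rw [this, mul_one, mul_one] at h3
  exact h3

theorem psi_jord (hsch : S_SCH) (h2 : (2 : K) ≠ 0) (s t u : SymK n K)
    (h : (s : Matrix (Fin n) (Fin n) K) * t + t * s = u) :
    (psi f hf hfix h2 s : Matrix (Fin n) (Fin n) K) * (psi f hf hfix h2 t) +
      (psi f hf hfix h2 t) * (psi f hf hfix h2 s) = psi f hf hfix h2 u := by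
  have h1 := hf (tS s hh im_hh) (tS t e2 im_e2) (tS u e2 im_e2) (by
    show br (ten (s : Matrix (Fin n) (Fin n) K) hh) (ten (t : Matrix (Fin n) (Fin n) K) e2) =
      ten (u : Matrix (Fin n) (Fin n) K) e2
    rw [br_ten, hh_e2, e2_hh, ← h, ten_add_left]
    ext1 i j
    show ((s : Matrix (Fin n) (Fin n) K) * t) i j • (e2 : Oct K) -
      ((t : Matrix (Fin n) (Fin n) K) * s) i j • (-e2) = ((s : Matrix (Fin n) (Fin n) K) * t) i j • e2 +
      ((t : Matrix (Fin n) (Fin n) K) * s) i j • e2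
    rw [smul_neg, sub_neg_eq_add])
  rw [f_psi f hf hfix hsch h2, f_psi f hf hfix hsch h2, f_psi f hf hfix hsch h2, br_ten, hh_e2,
    e2_hh] at h1
  apply ten_inj_e2 f hf hfix
  rw [← h1, ten_add_left]
  ext1 i j
  show ((psi f hf hfix h2 s : Matrix (Fin n) (Fin n) K) * (psi f hf hfix h2 t)) i j • (e2 : Oct K) +
    ((psi f hf hfix h2 t : Matrix (Fin n) (Fin n) K) * (psi f hf hfix h2 s)) i j • (e2 : Oct K) =
    ((psi f hf hfix h2 s : Matrix (Fin n) (Fin n) K) * (psi f hf hfix h2 t)) i j • (e2 : Oct K) -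
    ((psi f hf hfix h2 t : Matrix (Fin n) (Fin n) K) * (psi f hf hfix h2 s)) i j • (-e2 : Oct K)
  rw [smul_neg, sub_neg_eq_add]

end

theorem act_one (g : (Matrix (Fin n) (Fin n) K)ˣ) (X : Mat n K) : act 1 g X =
    re (g : Matrix (Fin n) (Fin n) K) * X * re (↑g⁻¹ : Matrix (Fin n) (Fin n) K) := rfl

theorem act_add (g : (Matrix (Fin n) (Fin n) K)ˣ) (X Y : Mat n K) :
    act 1 g (X + Y) = act 1 g X + act 1 g Y := by
  rw [act_one, act_one, act_one, Matrix.mul_add, Matrix.add_mul]

theorem act_ten (g : (Matrix (Fin n) (Fin n) K)ˣ) (s : Matrix (Fin n) (Fin n) K) (o : Oct K) :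
    act 1 g (ten s o) = ten ((g : Matrix (Fin n) (Fin n) K) * s *
      (↑g⁻¹ : Matrix (Fin n) (Fin n) K)) o := by
  rw [act_one, re_ten, re_ten, ten_mul, ten_mul, one_mul, mul_one]

theorem re_mem {a : Matrix (Fin n) (Fin n) K} (ha : aᵀ = -a) : re a ∈ SymM n K := by
  intro i j
  show star (a j i • (1 : Oct K)) = -(a i j • 1)
  have h : a j i = -a i j := by
    have := congrFun (congrFun ha i) j
    rw [Matrix.transpose_apply, Matrix.neg_apply] at this
    exact this
  rw [star_smul', star_one, h, neg_smul]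

/-- a real skew matrix is a combination of commutators -/
theorem skew_sum (h2 : (2 : K) ≠ 0) {b : Matrix (Fin n) (Fin n) K} (hb : bᵀ = -b) :
    b = ∑ i, ∑ j, (2⁻¹ * b i j) • (Matrix.single i j 1 - Matrix.single j i 1) := by
  ext k l
  have hkl : b l k = -b k l := by
    have := congrFun (congrFun hb k) l
    rw [Matrix.transpose_apply, Matrix.neg_apply] at this
    exact this
  have e1 : ∑ i, ∑ j, (2⁻¹ * b i j) * (if i = k ∧ j = l then (1 : K) else 0) = 2⁻¹ * b k l := by
    rw [Finset.sum_eq_single k, Finset.sum_eq_single l]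
    · simp
    · intro j _ hj
      simp [hj]
    · intro h
      exact absurd (Finset.mem_univ _) h
    · intro i _ hi
      simp [hi]
    · intro h
      exact absurd (Finset.mem_univ _) h
  have e3 : ∑ i, ∑ j, (2⁻¹ * b i j) * (if j = k ∧ i = l then (1 : K) else 0) = 2⁻¹ * b l k := by
    rw [Finset.sum_eq_single l, Finset.sum_eq_single k]
    · simp
    · intro j _ hj
      simp [hj]
    · intro h
      exact absurd (Finset.mem_univ _) h
    · intro i _ hi
      simp [hi]
    · intro h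
      exact absurd (Finset.mem_univ _) h
  simp only [Matrix.sum_apply, Matrix.smul_apply, Matrix.sub_apply, Matrix.single_apply,
    smul_eq_mul, mul_sub, Finset.sum_sub_distrib]
  rw [e1, e3, hkl]
  field_simp
  ring

/-- symmetric matrices -/
def sii (i : Fin n) : SymK n K := ⟨Matrix.single i i 1, Matrix.transpose_single _ _ _⟩

/-- symmetric matrices -/
def sij (i j : Fin n) : SymK n K := ⟨Matrix.single i j 1 + Matrix.single j i 1, by
  show (Matrix.single i j (1 : K) + Matrix.single j i 1)ᵀ = Matrix.single i j 1 + Matrix.single j i 1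
  rw [Matrix.transpose_add, Matrix.transpose_single, Matrix.transpose_single, add_comm]⟩

theorem comm_sij (i j : Fin n) : (sii i : SymK n K).1 * (sij i j : SymK n K).1 -
    (sij i j : SymK n K).1 * (sii i : SymK n K).1 = Matrix.single i j 1 - Matrix.single j i 1 := by
  show Matrix.single i i (1 : K) * (Matrix.single i j 1 + Matrix.single j i 1) -
    (Matrix.single i j 1 + Matrix.single j i 1) * Matrix.single i i 1 = _
  by_cases h : i = j
  · subst h
    rw [sub_self, Matrix.mul_add, Matrix.add_mul, sub_self]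
  · rw [Matrix.mul_add, Matrix.add_mul, Matrix.single_mul_single_same,
      Matrix.single_mul_single_of_ne _ _ _ _ h, Matrix.single_mul_single_of_ne _ _ _ _ (Ne.symm h),
      Matrix.single_mul_single_same, add_zero, zero_add, mul_one]

/-- basis octonions -/
def eO (m : Fin 8) : Oct K := mkO (Pi.single m 1)

theorem im_eO {m : Fin 8} (h0 : m ≠ 0) (h1 : m ≠ 1) : Im (eO m : Oct K) := by
  show (Pi.single m (1 : K) : Fin 8 → K) 0 + (Pi.single m (1 : K) : Fin 8 → K) 1 = 0
  rw [Pi.single_eq_of_ne (Ne.symm h0), Pi.single_eq_of_ne (Ne.symm h1), add_zero]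

/-- coordinates of an octonion -/
theorem dec (h2 : (2 : K) ≠ 0) (x : Oct K) : x = (2⁻¹ * (x 0 + x 1)) • (1 : Oct K) +
    ((2⁻¹ * (x 0 - x 1)) • hh + (x 2 • eO 2 + (x 3 • eO 3 + (x 4 • eO 4 + (x 5 • eO 5 + (x 6 • eO 6 +
      x 7 • eO 7)))))) := oct_ext fun i => by
  have e : ∀ (a : K), a * 1 = a := mul_one
  simp only [add_ap, smul_ap]
  match i with
  | 0 => simp [hh, eO, mkO_ap, one0]; field_simp; ring
  | 1 => simp [hh, eO, mkO_ap, one1]; field_simp; ring
  | 2 => simp [hh, eO, mkO_ap, one2]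
  | 3 => simp [hh, eO, mkO_ap, one3]
  | 4 => simp [hh, eO, mkO_ap, one4]
  | 5 => simp [hh, eO, mkO_ap, one5]
  | 6 => simp [hh, eO, mkO_ap, one6]
  | 7 => simp [hh, eO, mkO_ap, one7]

/-- coordinates of a skew-Hermitian matrix -/
theorem coord (X : SymM n K) (i j : Fin n) :
    ((X : Mat n K) j i) 1 = -(((X : Mat n K) i j) 0) ∧ ((X : Mat n K) j i) 0 = -(((X : Mat n K) i j) 1) ∧
    ∀ m : Fin 8, m ≠ 0 → m ≠ 1 → ((X : Mat n K) j i) m = ((X : Mat n K) i j) m := by
  have h := X.2 i j
  have h0 : (star ((X : Mat n K) j i)) 0 = (-((X : Mat n K) i j)) 0 := congrFun h 0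
  have h1 : (star ((X : Mat n K) j i)) 1 = (-((X : Mat n K) i j)) 1 := congrFun h 1
  rw [star0, neg_ap] at h0
  rw [star1, neg_ap] at h1
  refine ⟨h0, h1, ?_⟩
  intro m hm0 hm1
  have hm : (star ((X : Mat n K) j i)) m = (-((X : Mat n K) i j)) m := congrFun h m
  have hs : (star ((X : Mat n K) j i)) m = -(((X : Mat n K) j i) m) := by
    fin_cases m
    · exact absurd rfl hm0
    · exact absurd rfl hm1
    · exact star2 _
    · exact star3 _
    · exact star4 _
    · exact star5 _
    · exact star6 _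
    · exact star7 _
  rw [hs, neg_ap, neg_inj] at hm
  exact hm

/-- the real part -/
def bb (X : SymM n K) : Matrix (Fin n) (Fin n) K :=
  Matrix.of fun i j => 2⁻¹ * (((X : Mat n K) i j) 0 + ((X : Mat n K) i j) 1)

theorem bb_skew (X : SymM n K) : (bb X)ᵀ = -bb X := by
  ext i j
  show 2⁻¹ * (((X : Mat n K) j i) 0 + ((X : Mat n K) j i) 1) =
    -(2⁻¹ * (((X : Mat n K) i j) 0 + ((X : Mat n K) i j) 1))
  obtain ⟨h1, h0, -⟩ := coord X i j
  rw [h1, h0]
  ring

/-- coordinate `0` -/
def s0 (X : SymM n K) : SymK n K :=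
  ⟨Matrix.of fun i j => 2⁻¹ * (((X : Mat n K) i j) 0 - ((X : Mat n K) i j) 1), by
    ext i j
    show 2⁻¹ * (((X : Mat n K) j i) 0 - ((X : Mat n K) j i) 1) =
      2⁻¹ * (((X : Mat n K) i j) 0 - ((X : Mat n K) i j) 1)
    obtain ⟨h1, h0, -⟩ := coord X i j
    rw [h1, h0]
    ring⟩

/-- the other coordinates -/
def sm (X : SymM n K) (m : Fin 8) (h0 : m ≠ 0) (h1 : m ≠ 1) : SymK n K :=
  ⟨Matrix.of fun i j => ((X : Mat n K) i j) m, by
    ext i j
    exact (coord X i j).2.2 m h0 h1⟩

theorem t (hsch : S_SCH) (hjord : S_JORD) : S_FIXM := by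
  intro K _ n h2 _ f hf hfix _
  obtain ⟨g, hg, hgs⟩ := hjord K n h2 (psi f hf hfix h2) (psi_inj f hf hfix hsch h2)
    (psi_one f hf hfix h2) (psi_jord f hf hfix hsch h2)
  refine ⟨g, hg, ?_⟩
  -- imaginary part
  have hten : ∀ (s : SymK n K) (o : Oct K) (ho : Im o),
      (f (tS s o ho) : Mat n K) = act 1 g (tS s o ho : Mat n K) := by
    intro s o ho
    rw [f_psi f hf hfix hsch h2, hgs]
    exact (act_ten g _ o).symm
  -- commutators
  have hcomm : ∀ s t : SymK n K, ∃ X : SymM n K, (X : Mat n K) =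
      re (s.1 * t.1 - t.1 * s.1) ∧ (f X : Mat n K) = act 1 g (X : Mat n K) := by
    intro s t
    have hsk : (s.1 * t.1 - t.1 * s.1)ᵀ =
        -(s.1 * t.1 - t.1 * s.1) := by
      have hs : (s : Matrix (Fin n) (Fin n) K)ᵀ = s := s.2
      have ht : (t : Matrix (Fin n) (Fin n) K)ᵀ = t := t.2
      rw [Matrix.transpose_sub, Matrix.transpose_mul, Matrix.transpose_mul, hs, ht, neg_sub]
    refine ⟨⟨_, re_mem hsk⟩, rfl, ?_⟩
    have h1 := hf (tS s hh im_hh) (tS t hh im_hh) ⟨_, re_mem hsk⟩ (by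
      show br (ten (s : Matrix (Fin n) (Fin n) K) hh) (ten (t : Matrix (Fin n) (Fin n) K) hh) =
        re (s.1 * t.1 - t.1 * s.1)
      rw [br_ten, hh_hh, re_ten, ten_sub_left])
    rw [f_psi f hf hfix hsch h2, f_psi f hf hfix hsch h2, br_ten, hh_hh, hgs, hgs] at h1
    rw [← h1]
    show _ = act 1 g (ten (s.1 * t.1 - t.1 * s.1) 1)
    rw [act_ten, ← ten_sub_left]
    congr 1
    have hinv : (↑g⁻¹ : Matrix (Fin n) (Fin n) K) * g = 1 := Units.inv_mul g
    have e : ∀ A B : Matrix (Fin n) (Fin n) K, (g : Matrix (Fin n) (Fin n) K) * A *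
        (↑g⁻¹ : Matrix (Fin n) (Fin n) K) * ((g : Matrix (Fin n) (Fin n) K) * B *
        (↑g⁻¹ : Matrix (Fin n) (Fin n) K)) = (g : Matrix (Fin n) (Fin n) K) * (A * B) *
        (↑g⁻¹ : Matrix (Fin n) (Fin n) K) := by
      intro A B
      calc (g : Matrix (Fin n) (Fin n) K) * A * (↑g⁻¹ : Matrix (Fin n) (Fin n) K) *
          ((g : Matrix (Fin n) (Fin n) K) * B * (↑g⁻¹ : Matrix (Fin n) (Fin n) K))
          = (g : Matrix (Fin n) (Fin n) K) * A * ((↑g⁻¹ : Matrix (Fin n) (Fin n) K) * g) * B *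
            (↑g⁻¹ : Matrix (Fin n) (Fin n) K) := by simp only [Matrix.mul_assoc]
        _ = _ := by rw [hinv, Matrix.mul_one]; simp only [Matrix.mul_assoc]
    rw [e, e, Matrix.mul_sub, Matrix.sub_mul]
  -- the real matrices
  let R : Submodule K (Matrix (Fin n) (Fin n) K) :=
    { carrier := {b | ∃ X : SymM n K, (X : Mat n K) = re b ∧ (f X : Mat n K) = act 1 g (X : Mat n K)}
      add_mem' := by
        rintro a b ⟨X, hX, hX'⟩ ⟨Y, hY, hY'⟩
        refine ⟨X + Y, ?_, ?_⟩
        · show (X : Mat n K) + Y = re (a + b)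
          rw [hX, hY, re_ten, re_ten, re_ten, ten_add_left]
        · rw [map_add]
          show (f X : Mat n K) + f Y = act 1 g ((X : Mat n K) + Y)
          rw [hX', hY', act_add]
      zero_mem' := by
        refine ⟨0, ?_, ?_⟩
        · ext1 i j
          show (0 : Oct K) = (0 : K) • 1
          rw [zero_smul]
        · rw [map_zero]
          show (0 : Mat n K) = act 1 g 0
          rw [act_one, Matrix.mul_zero, Matrix.zero_mul]
      smul_mem' := by
        rintro r a ⟨X, hX, hX'⟩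
        refine ⟨r • X, ?_, ?_⟩
        · show r • (X : Mat n K) = re (r • a)
          rw [hX, re_ten, re_ten, ten_smul_left]
        · rw [map_smul]
          show r • (f X : Mat n K) = act 1 g (r • (X : Mat n K))
          rw [hX', act_one, act_one, Matrix.mul_smul, Matrix.smul_mul] }
  have hR : ∀ b : Matrix (Fin n) (Fin n) K, bᵀ = -b → b ∈ R := by
    intro b hb
    rw [skew_sum h2 hb]
    refine Submodule.sum_mem _ fun i _ => Submodule.sum_mem _ fun j _ => Submodule.smul_mem _ _ ?_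
    rw [← comm_sij i j]
    exact hcomm (sii i) (sij i j)
  intro X
  obtain ⟨B, hB1, hB2⟩ := hR (bb X) (bb_skew X)
  have hdec : X = B + (tS (s0 X) hh im_hh +
      (tS (sm X 2 (by decide) (by decide)) (eO 2) (im_eO (by decide) (by decide)) +
      (tS (sm X 3 (by decide) (by decide)) (eO 3) (im_eO (by decide) (by decide)) +
      (tS (sm X 4 (by decide) (by decide)) (eO 4) (im_eO (by decide) (by decide)) +
      (tS (sm X 5 (by decide) (by decide)) (eO 5) (im_eO (by decide) (by decide)) +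
      (tS (sm X 6 (by decide) (by decide)) (eO 6) (im_eO (by decide) (by decide)) +
      tS (sm X 7 (by decide) (by decide)) (eO 7) (im_eO (by decide) (by decide)))))))) := by
    apply Subtype.ext
    ext1 i j
    have hBij : (B : Mat n K) i j = (2⁻¹ * (((X : Mat n K) i j) 0 + ((X : Mat n K) i j) 1)) • 1 := by
      rw [hB1]
      rfl
    show (X : Mat n K) i j = (B : Mat n K) i j +
      ((2⁻¹ * (((X : Mat n K) i j) 0 - ((X : Mat n K) i j) 1)) • hh +
      (((X : Mat n K) i j) 2 • eO 2 + (((X : Mat n K) i j) 3 • eO 3 + (((X : Mat n K) i j) 4 • eO 4 +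
      (((X : Mat n K) i j) 5 • eO 5 + (((X : Mat n K) i j) 6 • eO 6 +
      ((X : Mat n K) i j) 7 • eO 7))))))
    rw [hBij]
    exact dec h2 _
  rw [hdec]
  simp only [map_add]
  show (f B : Mat n K) + (_ + (_ + (_ + (_ + (_ + (_ + _)))))) = act 1 g ((B : Mat n K) +
    (_ + (_ + (_ + (_ + (_ + (_ + _)))))))
  simp only [act_add]
  rw [hB2, hten, hten, hten, hten, hten, hten, hten]

end Pool.Agent.Q139.HO.FIXM
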